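import Pool.Agent.W397.EO.Main0
import Pool.Agent.W876.EO.ENT
import Pool.Agent.W696.EO.SUB
import Pool.Agent.W816.EO.ORD
import Pool.Agent.W724.EO.CLS

set_option autoImplicit false

/-!
# An entropy upper bound for the number of Eulerian orientations of a simple graph

Process the vertices in a uniformly random order. A vertex of degree `d` is processed at a uniform
place among itself and its neighbours, and the set of its earlier neighbours is a uniform subset of
its size, so the numbers of edges already directed away from it and towards it are hypergeometric;
the number of ways to direct the remaining edges is a binomial coefficient. Average.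
-/

namespace Pool.Agent.Results.MP_a3e05c_co.EntropyBound

/-- For every finite simple graph with all degrees even, the number of Eulerian orientations is at
most a product over the vertices of explicit functions of the degrees (three forms, the first is the
smallest). -/
theorem result :
    ∀ (V : Type) [Fintype V] [DecidableEq V] (G : SimpleGraph V) [DecidableRel G.Adj],
      (∀ v : V, Even (G.degree v)) →
      (((Finset.univ : Finset (V → V → Bool)).filter (fun o =>
          (∀ u w : V, o u w = true → G.Adj u w) ∧
          (∀ u w : V, G.Adj u w → (o u w = true ↔ o w u = false)) ∧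
          (∀ x : V, (Finset.univ.filter (fun w => o x w = true)).card =
                    (Finset.univ.filter (fun w => o w x = true)).card))).card : ℝ) ≤
          ∏ v : V, ∏ a ∈ Finset.range (G.degree v / 2 + 1), ∏ b ∈ Finset.range (G.degree v / 2 + 1),
            ((G.degree v - (a + b)).choose (G.degree v / 2 - a) : ℝ) ^
              (((G.degree v / 2).choose a : ℝ) * ((G.degree v / 2).choose b : ℝ) /
                (((G.degree v : ℝ) + 1) * ((G.degree v).choose (a + b) : ℝ))) ∧
      ∏ v : V, ∏ a ∈ Finset.range (G.degree v / 2 + 1), ∏ b ∈ Finset.range (G.degree v / 2 + 1),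
            ((G.degree v - (a + b)).choose (G.degree v / 2 - a) : ℝ) ^
              (((G.degree v / 2).choose a : ℝ) * ((G.degree v / 2).choose b : ℝ) /
                (((G.degree v : ℝ) + 1) * ((G.degree v).choose (a + b) : ℝ))) ≤
          ∏ v : V, (∏ m ∈ Finset.range (G.degree v + 1), (m.choose (m / 2) : ℝ)) ^
            ((1 : ℝ) / ((G.degree v : ℝ) + 1)) ∧
      ∏ v : V, (∏ m ∈ Finset.range (G.degree v + 1), (m.choose (m / 2) : ℝ)) ^
            ((1 : ℝ) / ((G.degree v : ℝ) + 1)) ≤
          ∏ v : V, ((2 : ℝ) ^ (G.degree v / 2) *
            ((2 / 3) ^ (G.degree v) / ((G.degree v).factorial : ℝ)) ^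
              ((1 : ℝ) / (2 * ((G.degree v : ℝ) + 1)))) := by
  intro V _ _ G _ hev
  exact Pool.Agent.W397.EO.main Pool.Agent.W816.EO.ORD.main Pool.Agent.W876.EO.main
    Pool.Agent.W696.EO.SUB.main Pool.Agent.W724.EO.CLS.main V G hev

end Pool.Agent.Results.MP_a3e05c_co.EntropyBound
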